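import Mathlib

/-!
# Ratio of convex hull areas of k-point subsets: the two-line set is not extremal
-/

set_option autoImplicit false

namespace Pool.Agent.Results.MP_ee40c7_co.FloorBound

open MeasureTheory Set

/-- area (Lebesgue measure) of the convex hull of a finite subset of the plane -/
noncomputable def hullArea (Y : Finset (ℝ × ℝ)) : ℝ :=
  (volume (convexHull ℝ (Y : Set (ℝ × ℝ)))).toReal

/-- `T_k(S)`: the largest area of the convex hull of a `k`-element subset of `S` -/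
noncomputable def maxArea (k : ℕ) (S : Finset (ℝ × ℝ)) : ℝ :=
  sSup {a | ∃ Y ⊆ S, Y.card = k ∧ a = hullArea Y}

/-- `t_k(S)`: the smallest positive area of the convex hull of a `k`-element subset of `S` -/
noncomputable def minArea (k : ℕ) (S : Finset (ℝ × ℝ)) : ℝ :=
  sInf {a | ∃ Y ⊆ S, Y.card = k ∧ a = hullArea Y ∧ 0 < a}

/-- `f(k,n)`: the infimum of `T_k(S)/t_k(S)` over all `n`-point sets that are not collinear -/
noncomputable def f (k n : ℕ) : ℝ :=
  sInf {r | ∃ S : Finset (ℝ × ℝ), S.card = n ∧ ¬ Collinear ℝ (S : Set (ℝ × ℝ)) ∧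
    r = maxArea k S / minArea k S}

/-- the `n`-point set `S_n` on the two parallel lines `x = 0` and `x = 1` -/
noncomputable def twoLines (n : ℕ) : Finset (ℝ × ℝ) :=
  (Finset.range ((n - 1) / 2 + 1)).image (fun j : ℕ => ((0 : ℝ), (j : ℝ))) ∪
    (Finset.range ((n - 2) / 2 + 1)).image (fun j : ℕ => ((1 : ℝ), (j : ℝ)))

/-- the trapezoid between the two lines -/
def R (a b c d : ℝ) : Set (ℝ × ℝ) :=
  {q | 0 ≤ q.1 ∧ q.1 ≤ 1 ∧ (1 - q.1) * a + q.1 * c ≤ q.2 ∧ q.2 ≤ (1 - q.1) * b + q.1 * d}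

lemma meas_R (a b c d : ℝ) : MeasurableSet (R a b c d) := by
  have h : R a b c d = {q | 0 ≤ q.1} ∩ {q | q.1 ≤ 1} ∩ {q | (1 - q.1) * a + q.1 * c ≤ q.2} ∩
    {q | q.2 ≤ (1 - q.1) * b + q.1 * d} := by
    ext q; simp only [R, mem_ofPred_eq, mem_inter_iff]; tauto
  rw [h]
  refine (((isClosed_le ?_ ?_).inter (isClosed_le ?_ ?_)).inter (isClosed_le ?_ ?_)).inter
    (isClosed_le ?_ ?_) |>.measurableSet <;> fun_prop

lemma vol_R {a b c d : ℝ} (hab : a ≤ b) (hcd : c ≤ d) :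
    volume (R a b c d) = ENNReal.ofReal (((b - a) + (d - c)) / 2) := by
  rw [Measure.volume_eq_prod, Measure.prod_apply (meas_R a b c d)]
  have h1 : ∀ x : ℝ, volume (Prod.mk x ⁻¹' R a b c d) =
      (Icc (0:ℝ) 1).indicator (fun x => ENNReal.ofReal ((1 - x) * (b - a) + x * (d - c))) x := by
    intro x
    by_cases hx : x ∈ Icc (0:ℝ) 1
    · rw [indicator_of_mem hx]
      have : Prod.mk x ⁻¹' R a b c d = Icc ((1 - x) * a + x * c) ((1 - x) * b + x * d) := by
        ext y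
        simp only [R, mem_preimage, mem_ofPred_eq, mem_Icc]
        exact ⟨fun h => h.2.2, fun h => ⟨hx.1, hx.2, h⟩⟩
      rw [this, Real.volume_Icc]
      congr 1; ring
    · rw [indicator_of_notMem hx]
      have : Prod.mk x ⁻¹' R a b c d = ∅ := by
        ext y
        simp only [R, mem_preimage, mem_ofPred_eq, mem_empty_iff_false, iff_false]
        exact fun h => hx ⟨h.1, h.2.1⟩
      rw [this, measure_empty]
  simp only [h1]
  rw [lintegral_indicator measurableSet_Icc, ← ofReal_integral_eq_lintegral_ofReal]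
  · congr 1
    rw [integral_Icc_eq_integral_Ioc, ← intervalIntegral.integral_of_le zero_le_one]
    have h2 : ∀ x : ℝ, HasDerivAt (fun x => x * (b - a) + x ^ 2 / 2 * ((d - c) - (b - a)))
        ((1 - x) * (b - a) + x * (d - c)) x := by
      intro x
      have e1 : HasDerivAt (fun x : ℝ => x * (b - a)) (1 * (b - a)) x :=
        (hasDerivAt_id x).mul_const _
      have e2 : HasDerivAt (fun x : ℝ => x ^ 2 / 2 * ((d - c) - (b - a)))
          ((2 * x ^ 1 * 1) / 2 * ((d - c) - (b - a))) x :=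
        (((hasDerivAt_id x).pow 2).div_const 2).mul_const _
      exact (e1.add e2).congr_deriv (by ring)
    rw [intervalIntegral.integral_eq_sub_of_hasDerivAt (fun x _ => h2 x)
      (Continuous.intervalIntegrable (by fun_prop) _ _)]
    ring
  · exact (Continuous.continuousOn (by fun_prop)).integrableOn_Icc
  · filter_upwards [ae_restrict_mem measurableSet_Icc] with x hx
    have : 0 ≤ (1 - x) * (b - a) := mul_nonneg (by linarith [hx.2]) (by linarith)
    have : 0 ≤ x * (d - c) := mul_nonneg hx.1 (by linarith)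
    simp only [Pi.zero_apply]
    linarith

lemma convex_R (a b c d : ℝ) : Convex ℝ (R a b c d) := by
  intro p hp q hq s t hs ht hst
  simp only [R, mem_ofPred_eq, Prod.fst_add, Prod.smul_fst, smul_eq_mul, Prod.snd_add,
    Prod.smul_snd] at hp hq ⊢
  obtain ⟨p1, p2, p3, p4⟩ := hp
  obtain ⟨q1, q2, q3, q4⟩ := hq
  have ht' : t = 1 - s := by linarith
  subst ht'
  refine ⟨by positivity, ?_, ?_, ?_⟩
  · nlinarith [mul_le_mul_of_nonneg_left p2 hs, mul_le_mul_of_nonneg_left q2 ht]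
  · nlinarith [mul_le_mul_of_nonneg_left p3 hs, mul_le_mul_of_nonneg_left q3 ht]
  · nlinarith [mul_le_mul_of_nonneg_left p4 hs, mul_le_mul_of_nonneg_left q4 ht]

lemma R_sub {a b c d : ℝ} {s : Set (ℝ × ℝ)} (hs : Convex ℝ s) (h1 : ((0:ℝ), a) ∈ s)
    (h2 : ((0:ℝ), b) ∈ s) (h3 : ((1:ℝ), c) ∈ s) (h4 : ((1:ℝ), d) ∈ s) : R a b c d ⊆ s := by
  rintro ⟨x, y⟩ ⟨hx0, hx1, hy1, hy2⟩
  simp only at hx0 hx1 hy1 hy2
  have l1 : (x, (1 - x) * a + x * c) ∈ s := by
    have := hs h1 h3 (by linarith : 0 ≤ 1 - x) hx0 (by ring)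
    simpa using this
  have l2 : (x, (1 - x) * b + x * d) ∈ s := by
    have := hs h2 h4 (by linarith : 0 ≤ 1 - x) hx0 (by ring)
    simpa using this
  set lo := (1 - x) * a + x * c
  set up := (1 - x) * b + x * d
  rcases eq_or_lt_of_le (hy1.trans hy2) with h | h
  · have : y = lo := le_antisymm (by rw [h]; exact hy2) hy1
    rw [this]; exact l1
  · have hd : 0 < up - lo := by linarith
    have := hs l1 l2 (div_nonneg (by linarith) hd.le : 0 ≤ (up - y) / (up - lo))
      (div_nonneg (by linarith) hd.le : 0 ≤ (y - lo) / (up - lo)) (by field_simp; ring)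
    have e : ((up - y) / (up - lo)) • (x, lo) + ((y - lo) / (up - lo)) • (x, up) = (x, y) := by
      ext
      · simp only [Prod.smul_mk, smul_eq_mul, Prod.mk_add_mk]
        field_simp; ring
      · simp only [Prod.smul_mk, smul_eq_mul, Prod.mk_add_mk]
        field_simp; ring
    rwa [e] at this

lemma hull_fin (Y : Finset (ℝ × ℝ)) : volume (convexHull ℝ (Y : Set (ℝ × ℝ))) ≠ ⊤ := by
  have h : Bornology.IsBounded (convexHull ℝ (Y : Set (ℝ × ℝ))) :=
    isBounded_convexHull.2 Y.finite_toSet.isBounded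
  exact h.measure_lt_top.ne

lemma hullArea_ge {Y : Finset (ℝ × ℝ)} {a b c d : ℝ} (hab : a ≤ b) (hcd : c ≤ d)
    (h1 : ((0:ℝ), a) ∈ Y) (h2 : ((0:ℝ), b) ∈ Y) (h3 : ((1:ℝ), c) ∈ Y) (h4 : ((1:ℝ), d) ∈ Y) :
    ((b - a) + (d - c)) / 2 ≤ hullArea Y := by
  have hsub := subset_convexHull ℝ (Y : Set (ℝ × ℝ))
  have h := measure_mono (μ := volume) (R_sub (convex_convexHull ℝ (Y : Set (ℝ × ℝ)))
    (hsub h1) (hsub h2) (hsub h3) (hsub h4))
  rw [vol_R hab hcd] at h
  have h5 := ENNReal.toReal_mono (hull_fin Y) h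
  rwa [ENNReal.toReal_ofReal (by linarith)] at h5

lemma hullArea_le {Y : Finset (ℝ × ℝ)} {a b c d : ℝ} (hab : a ≤ b) (hcd : c ≤ d)
    (h : (Y : Set (ℝ × ℝ)) ⊆ R a b c d) : hullArea Y ≤ ((b - a) + (d - c)) / 2 := by
  have h1 := measure_mono (μ := volume) (convexHull_min h (convex_R a b c d))
  rw [vol_R hab hcd] at h1
  have h5 := ENNReal.toReal_mono ENNReal.ofReal_ne_top h1
  rwa [ENNReal.toReal_ofReal (by linarith)] at h5

lemma fin_areas (k : ℕ) (S : Finset (ℝ × ℝ)) : {a | ∃ Y ⊆ S, Y.card = k ∧ a = hullArea Y}.Finite := by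
  refine (S.powerset.finite_toSet.image hullArea).subset ?_
  rintro a ⟨Y, hY, -, rfl⟩
  exact ⟨Y, by simpa using hY, rfl⟩

lemma fin_areas' (k : ℕ) (S : Finset (ℝ × ℝ)) :
    {a | ∃ Y ⊆ S, Y.card = k ∧ a = hullArea Y ∧ 0 < a}.Finite := by
  refine (fin_areas k S).subset ?_
  rintro a ⟨Y, hY, h1, h2, -⟩
  exact ⟨Y, hY, h1, h2⟩

lemma inj0 : Function.Injective (fun j : ℕ => ((0 : ℝ), (j : ℝ))) := by
  intro i j h
  simpa using h
lemma inj1 : Function.Injective (fun j : ℕ => ((1 : ℝ), (j : ℝ))) := by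
  intro i j h
  simpa using h

lemma card_twoLines {n : ℕ} (hn : 2 ≤ n) : (twoLines n).card = n := by
  rw [twoLines, Finset.card_union_of_disjoint, Finset.card_image_of_injective _ inj0,
    Finset.card_image_of_injective _ inj1, Finset.card_range, Finset.card_range]
  · omega
  · rw [Finset.disjoint_left]
    intro q h1 h2
    rw [Finset.mem_image] at h1 h2
    obtain ⟨i, -, rfl⟩ := h1
    obtain ⟨j, -, h⟩ := h2
    have := congrArg Prod.fst h
    norm_num at this

lemma mem0 {n j : ℕ} (h : j ≤ (n - 1) / 2) : ((0 : ℝ), (j : ℝ)) ∈ twoLines n :=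
  Finset.mem_union_left _ (Finset.mem_image.2 ⟨j, Finset.mem_range.2 (by omega), rfl⟩)
lemma mem1 {n j : ℕ} (h : j ≤ (n - 2) / 2) : ((1 : ℝ), (j : ℝ)) ∈ twoLines n :=
  Finset.mem_union_right _ (Finset.mem_image.2 ⟨j, Finset.mem_range.2 (by omega), rfl⟩)

/-- lower bound for the ratio of the two-line set -/
lemma twoLines_ratio {k n : ℕ} (hk : 4 ≤ k) (hn : 2 * k ≤ n) :
    ((n : ℝ) - 2) / ((k : ℝ) - 2) ≤ maxArea k (twoLines n) / minArea k (twoLines n) := by
  have hkr : (0 : ℝ) < (k : ℝ) - 2 := by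
    have : (4 : ℝ) ≤ k := by exact_mod_cast hk
    linarith
  have hnr : (0 : ℝ) ≤ (n : ℝ) - 2 := by
    have : (2 * k : ℝ) ≤ n := by exact_mod_cast hn
    linarith
  -- largest area
  have hT : ((n : ℝ) - 2) / 2 ≤ maxArea k (twoLines n) := by
    set A : Finset (ℝ × ℝ) := {((0:ℝ), ((0:ℕ):ℝ)), ((0:ℝ), (((n - 1) / 2 : ℕ) : ℝ)),
      ((1:ℝ), ((0:ℕ):ℝ)), ((1:ℝ), (((n - 2) / 2 : ℕ) : ℝ))} with hA
    have hAs : A ⊆ twoLines n := by
      intro q hq
      rw [hA] at hq
      simp only [Finset.mem_insert, Finset.mem_singleton] at hq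
      rcases hq with rfl | rfl | rfl | rfl
      · exact mem0 (Nat.zero_le _)
      · exact mem0 le_rfl
      · exact mem1 (Nat.zero_le _)
      · exact mem1 le_rfl
    obtain ⟨Y, hAY, hYs, hYc⟩ := Finset.exists_subsuperset_card_eq hAs
      (Finset.card_le_four.trans hk) (by rw [card_twoLines (by omega)]; omega)
    have h1 : hullArea Y ≤ maxArea k (twoLines n) :=
      le_csSup (fin_areas k _).bddAbove ⟨Y, hYs, hYc, rfl⟩
    refine le_trans ?_ h1
    have h2 := hullArea_ge (Y := Y) (a := ((0:ℕ):ℝ)) (b := (((n - 1) / 2 : ℕ) : ℝ))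
      (c := ((0:ℕ):ℝ)) (d := (((n - 2) / 2 : ℕ) : ℝ)) (by exact_mod_cast Nat.zero_le _)
      (by exact_mod_cast Nat.zero_le _) (hAY (by rw [hA]; simp)) (hAY (by rw [hA]; simp))
      (hAY (by rw [hA]; simp)) (hAY (by rw [hA]; simp))
    refine le_trans (le_of_eq ?_) h2
    have h3 : (n - 1) / 2 + (n - 2) / 2 + 2 = n := by omega
    have h4 : (((n - 1) / 2 : ℕ) : ℝ) + (((n - 2) / 2 : ℕ) : ℝ) + 2 = n := by exact_mod_cast h3
    rw [Nat.cast_zero]
    linarith
  -- smallest positive area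
  set Y0 : Finset (ℝ × ℝ) := insert ((1:ℝ), ((0:ℕ):ℝ))
    ((Finset.range (k - 1)).image (fun j : ℕ => ((0 : ℝ), (j : ℝ)))) with hY0
  have hY0s : Y0 ⊆ twoLines n := by
    intro q hq
    rw [hY0, Finset.mem_insert, Finset.mem_image] at hq
    rcases hq with rfl | ⟨j, hj, rfl⟩
    · exact mem1 (Nat.zero_le _)
    · rw [Finset.mem_range] at hj
      exact mem0 (by omega)
  have hY0c : Y0.card = k := by
    rw [hY0, Finset.card_insert_of_notMem, Finset.card_image_of_injective _ inj0,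
      Finset.card_range]
    · omega
    · rw [Finset.mem_image]
      rintro ⟨j, -, h⟩
      have := congrArg Prod.fst h
      norm_num at this
  have hkc : (((k - 2 : ℕ)) : ℝ) = (k : ℝ) - 2 := by
    rw [Nat.cast_sub (by omega)]; norm_num
  have hlow : ((k : ℝ) - 2) / 2 ≤ hullArea Y0 := by
    have h2 := hullArea_ge (Y := Y0) (a := ((0:ℕ):ℝ)) (b := ((k - 2 : ℕ) : ℝ))
      (c := ((0:ℕ):ℝ)) (d := ((0:ℕ):ℝ)) (by exact_mod_cast Nat.zero_le _) le_rfl
      (Finset.mem_insert_of_mem (Finset.mem_image.2 ⟨0, Finset.mem_range.2 (by omega), rfl⟩))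
      (Finset.mem_insert_of_mem (Finset.mem_image.2 ⟨k - 2, Finset.mem_range.2 (by omega), rfl⟩))
      (Finset.mem_insert_self _ _) (Finset.mem_insert_self _ _)
    refine le_trans (le_of_eq ?_) h2
    rw [hkc, Nat.cast_zero]; ring
  have hupp : hullArea Y0 ≤ ((k : ℝ) - 2) / 2 := by
    have h2 := hullArea_le (Y := Y0) (a := 0) (b := (k : ℝ) - 2) (c := 0) (d := 0) hkr.le le_rfl (by
      intro q hq
      rw [Finset.mem_coe, hY0, Finset.mem_insert, Finset.mem_image] at hq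
      rcases hq with rfl | ⟨j, hj, rfl⟩
      · simp [R]
      · rw [Finset.mem_range] at hj
        have h3 : (j : ℝ) ≤ (k : ℝ) - 2 := by
          rw [← hkc]; exact_mod_cast (by omega : j ≤ k - 2)
        simp only [R, mem_ofPred_eq]
        refine ⟨le_rfl, zero_le_one, by simp, by simpa using h3⟩)
    refine h2.trans (le_of_eq ?_)
    ring
  have hne : {a | ∃ Y ⊆ twoLines n, Y.card = k ∧ a = hullArea Y ∧ 0 < a}.Nonempty :=
    ⟨hullArea Y0, Y0, hY0s, hY0c, rfl, by linarith⟩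
  have ht1 : minArea k (twoLines n) ≤ ((k : ℝ) - 2) / 2 := by
    refine (csInf_le (fin_areas' k _).bddBelow ⟨Y0, hY0s, hY0c, rfl, by linarith⟩).trans hupp
  have ht0 : 0 < minArea k (twoLines n) := by
    obtain ⟨Y, -, -, -, h⟩ := hne.csInf_mem (fin_areas' k _)
    exact h
  rw [div_le_div_iff₀ hkr ht0]
  nlinarith

/-- heights of the points on the line -/
noncomputable def ht (K : ℕ) (e : ℝ) (i : ℕ) : ℝ := (K : ℝ) * ((i / K : ℕ) : ℝ) + e * ((i % K : ℕ) : ℝ)

lemma ht_mono {K : ℕ} (hK : 2 ≤ K) {e : ℝ} (he : 0 < e) (he1 : e < 1) : StrictMono (ht K e) := by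
  intro i j hij
  have hK0 : 0 < K := by omega
  have hi := Nat.mod_lt i hK0
  have hj := Nat.mod_lt j hK0
  have hdi := Nat.div_add_mod i K
  have hdj := Nat.div_add_mod j K
  have hle : i / K ≤ j / K := Nat.div_le_div_right hij.le
  rcases Nat.eq_or_lt_of_le hle with h | h
  · have h1 : i % K < j % K := by
      rw [h] at hdi; omega
    have h2 : ((i % K : ℕ) : ℝ) < ((j % K : ℕ) : ℝ) := by exact_mod_cast h1
    unfold ht
    rw [h]
    nlinarith
  · have h1 : ((i / K : ℕ) : ℝ) + 1 ≤ ((j / K : ℕ) : ℝ) := by exact_mod_cast h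
    have h2 : ((i % K : ℕ) : ℝ) + 1 ≤ (K : ℝ) := by exact_mod_cast hi
    have h3 : (0 : ℝ) ≤ ((j % K : ℕ) : ℝ) := Nat.cast_nonneg _
    have h4 : (2 : ℝ) ≤ K := by exact_mod_cast hK
    unfold ht
    have h5 : (K : ℝ) * ((i / K : ℕ) : ℝ) + K ≤ K * ((j / K : ℕ) : ℝ) := by nlinarith
    have h6 : e * ((i % K : ℕ) : ℝ) < K := by
      have : (0 : ℝ) ≤ ((i % K : ℕ) : ℝ) := Nat.cast_nonneg _
      nlinarith
    have h7 : 0 ≤ e * ((j % K : ℕ) : ℝ) := by positivity
    linarith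

lemma ht_add {K : ℕ} (hK : 2 ≤ K) (e : ℝ) (i : ℕ) : ht K e (i + K) = ht K e i + K := by
  unfold ht
  rw [Nat.add_div_right _ (by omega), Nat.add_mod_right]
  push_cast; ring

lemma ht_zero (K : ℕ) (e : ℝ) : ht K e 0 = 0 := by simp [ht]

/-- the better set -/
noncomputable def fan (K : ℕ) (e : ℝ) (n : ℕ) : Finset (ℝ × ℝ) :=
  insert ((1:ℝ), (0:ℝ)) ((Finset.range (n - 1)).image (fun i : ℕ => ((0:ℝ), ht K e i)))

lemma inj_ht {K : ℕ} (hK : 2 ≤ K) {e : ℝ} (he : 0 < e) (he1 : e < 1) :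
    Function.Injective (fun i : ℕ => ((0:ℝ), ht K e i)) := by
  intro i j h
  have := congrArg Prod.snd h
  exact (ht_mono hK he he1).injective this

lemma apex_notMem (K : ℕ) (e : ℝ) (n : ℕ) :
    ((1:ℝ), (0:ℝ)) ∉ (Finset.range (n - 1)).image (fun i : ℕ => ((0:ℝ), ht K e i)) := by
  rw [Finset.mem_image]
  rintro ⟨j, -, h⟩
  have := congrArg Prod.fst h
  norm_num at this

lemma card_fan {K : ℕ} (hK : 2 ≤ K) {e : ℝ} (he : 0 < e) (he1 : e < 1) {n : ℕ} (hn : 1 ≤ n) :
    (fan K e n).card = n := by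
  rw [fan, Finset.card_insert_of_notMem (apex_notMem K e n),
    Finset.card_image_of_injective _ (inj_ht hK he he1), Finset.card_range]
  omega

lemma fan_not_col {K : ℕ} (hK : 2 ≤ K) {e : ℝ} (he : 0 < e) (he1 : e < 1) {n : ℕ} (hn : 3 ≤ n) :
    ¬ Collinear ℝ (fan K e n : Set (ℝ × ℝ)) := by
  have m0 : ((0:ℝ), ht K e 0) ∈ (fan K e n : Set (ℝ × ℝ)) :=
    Finset.mem_insert_of_mem (Finset.mem_image.2 ⟨0, Finset.mem_range.2 (by omega), rfl⟩)
  have m1 : ((0:ℝ), ht K e 1) ∈ (fan K e n : Set (ℝ × ℝ)) :=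
    Finset.mem_insert_of_mem (Finset.mem_image.2 ⟨1, Finset.mem_range.2 (by omega), rfl⟩)
  have m2 : ((1:ℝ), (0:ℝ)) ∈ (fan K e n : Set (ℝ × ℝ)) := Finset.mem_insert_self _ _
  rw [collinear_iff_of_mem m0]
  rintro ⟨v, hv⟩
  obtain ⟨r, hr⟩ := hv _ m1
  obtain ⟨r', hr'⟩ := hv _ m2
  have h1 := congrArg Prod.fst hr
  have h2 := congrArg Prod.snd hr
  have h3 := congrArg Prod.fst hr'
  simp only [vadd_eq_add, Prod.fst_add, Prod.smul_fst, smul_eq_mul, Prod.snd_add, Prod.smul_snd,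
    add_zero] at h1 h2 h3
  have h4 := ht_mono hK he he1 (show 0 < 1 by norm_num)
  have hr0 : r ≠ 0 := by
    rintro rfl
    rw [zero_mul, zero_add] at h2
    linarith
  have hv1 : v.1 = 0 := by
    rcases mul_eq_zero.1 h1.symm with h | h
    · exact absurd h hr0
    · exact h
  rw [hv1, mul_zero] at h3
  norm_num at h3

lemma fan_sub {K : ℕ} (hK : 2 ≤ K) {e : ℝ} (he : 0 < e) (he1 : e < 1) {n : ℕ} (hn : 3 ≤ n) :
    (fan K e n : Set (ℝ × ℝ)) ⊆ R 0 (ht K e (n - 2)) 0 0 := by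
  have hm := (ht_mono hK he he1).monotone
  intro q hq
  rw [Finset.mem_coe, fan, Finset.mem_insert, Finset.mem_image] at hq
  rcases hq with rfl | ⟨j, hj, rfl⟩
  · simp [R]
  · rw [Finset.mem_range] at hj
    have h1 := hm (show j ≤ n - 2 by omega)
    have h2 := hm (Nat.zero_le j)
    rw [ht_zero] at h2
    simp only [R, mem_ofPred_eq]
    refine ⟨le_rfl, zero_le_one, by simpa using h2, by simpa using h1⟩

/-- every `k`-subset of the fan with positive hull area has hull area at least `(k-2)/2` -/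
lemma fan_min {k : ℕ} (hk : 4 ≤ k) {e : ℝ} (he : 0 < e) (he1 : e < 1) {n : ℕ}
    {Y : Finset (ℝ × ℝ)} (hY : Y ⊆ fan (k - 2) e n) (hc : Y.card = k) (hpos : 0 < hullArea Y) :
    ((k - 2 : ℕ) : ℝ) / 2 ≤ hullArea Y := by
  have hK : 2 ≤ k - 2 := by omega
  have hm := ht_mono hK he he1
  by_cases hap : ((1:ℝ), (0:ℝ)) ∈ Y
  · set I : Finset ℕ := (Finset.range (n - 1)).filter (fun i => ((0:ℝ), ht (k - 2) e i) ∈ Y) with hI
    have hIc : I.card = k - 1 := by
      have h1 : Y.erase ((1:ℝ), (0:ℝ)) = I.image (fun i : ℕ => ((0:ℝ), ht (k - 2) e i)) := by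
        ext q
        rw [Finset.mem_erase, Finset.mem_image]
        constructor
        · rintro ⟨h1, h2⟩
          have h3 := hY h2
          rw [fan, Finset.mem_insert, Finset.mem_image] at h3
          rcases h3 with h3 | ⟨i, hi, rfl⟩
          · exact absurd h3 h1
          · exact ⟨i, Finset.mem_filter.2 ⟨hi, h2⟩, rfl⟩
        · rintro ⟨i, hi, rfl⟩
          refine ⟨?_, (Finset.mem_filter.1 hi).2⟩
          intro h
          have := congrArg Prod.fst h
          norm_num at this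
      have h2 := congrArg Finset.card h1
      rw [Finset.card_erase_of_mem hap, hc, Finset.card_image_of_injective _ (inj_ht hK he he1)] at h2
      exact h2.symm
    have hne : I.Nonempty := Finset.card_pos.1 (by omega)
    have hmin := Finset.min'_mem I hne
    have hmax := Finset.max'_mem I hne
    have hsub : I ⊆ Finset.Icc (I.min' hne) (I.max' hne) := fun i hi =>
      Finset.mem_Icc.2 ⟨I.min'_le i hi, I.le_max' i hi⟩
    have hcard := Finset.card_le_card hsub
    rw [Nat.card_Icc, hIc] at hcard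
    have hle : I.min' hne + (k - 2) ≤ I.max' hne := by omega
    have h4 := hm.monotone hle
    rw [ht_add hK] at h4
    have h5 := hullArea_ge (Y := Y) (a := ht (k - 2) e (I.min' hne)) (b := ht (k - 2) e (I.max' hne))
      (c := 0) (d := 0) (by
        have : (0:ℝ) ≤ ((k - 2 : ℕ) : ℝ) := Nat.cast_nonneg _
        linarith) le_rfl (Finset.mem_filter.1 hmin).2 (Finset.mem_filter.1 hmax).2 hap hap
    linarith
  · exfalso
    have hsub : (Y : Set (ℝ × ℝ)) ⊆ {(0:ℝ)} ×ˢ (univ : Set ℝ) := by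
      intro q hq
      have h3 := hY hq
      rw [fan, Finset.mem_insert, Finset.mem_image] at h3
      rcases h3 with h3 | ⟨i, hi, rfl⟩
      · rw [h3] at hq; exact absurd hq hap
      · simp
    have hcv : Convex ℝ ({(0:ℝ)} ×ˢ (univ : Set ℝ)) := (convex_singleton (0:ℝ)).prod convex_univ
    have h1 := measure_mono (μ := volume) (convexHull_min hsub hcv)
    rw [Measure.volume_eq_prod, Measure.prod_prod, Real.volume_singleton, zero_mul] at h1
    have h2 : volume (convexHull ℝ (Y : Set (ℝ × ℝ))) = 0 := nonpos_iff_eq_zero.1 h1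
    rw [hullArea, h2] at hpos
    simp at hpos

lemma fan_ratio {k : ℕ} (hk : 4 ≤ k) {e : ℝ} (he : 0 < e) (he1 : e < 1) {n : ℕ} (hn : k ≤ n) :
    maxArea k (fan (k - 2) e n) / minArea k (fan (k - 2) e n) ≤
      ht (k - 2) e (n - 2) / ((k - 2 : ℕ) : ℝ) := by
  have hK : 2 ≤ k - 2 := by omega
  have hKr : (0 : ℝ) < ((k - 2 : ℕ) : ℝ) := by exact_mod_cast (by omega : 0 < k - 2)
  have hm := ht_mono hK he he1
  have hL : 0 ≤ ht (k - 2) e (n - 2) := by
    have := hm.monotone (Nat.zero_le (n - 2)); rwa [ht_zero] at this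
  have hcf : (fan (k - 2) e n).card = n := card_fan hK he he1 (by omega)
  obtain ⟨Y1, hY1, hY1c⟩ := Finset.exists_subset_card_eq (show k ≤ (fan (k - 2) e n).card by omega)
  have hT : maxArea k (fan (k - 2) e n) ≤ ht (k - 2) e (n - 2) / 2 := by
    refine csSup_le ⟨_, Y1, hY1, hY1c, rfl⟩ ?_
    rintro a ⟨Y, hY, -, rfl⟩
    have := hullArea_le (Y := Y) hL le_rfl (Subset.trans (by exact_mod_cast hY) (fan_sub hK he he1 (by omega)))
    linarith
  -- a subset with positive area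
  have hY2 : ∃ Y ⊆ fan (k - 2) e n, Y.card = k ∧ 0 < hullArea Y := by
    set A : Finset (ℝ × ℝ) := {((0:ℝ), ht (k - 2) e 0), ((0:ℝ), ht (k - 2) e 1), ((1:ℝ), (0:ℝ))} with hA
    have hAs : A ⊆ fan (k - 2) e n := by
      intro q hq
      rw [hA] at hq
      simp only [Finset.mem_insert, Finset.mem_singleton] at hq
      rcases hq with rfl | rfl | rfl
      · exact Finset.mem_insert_of_mem (Finset.mem_image.2 ⟨0, Finset.mem_range.2 (by omega), rfl⟩)
      · exact Finset.mem_insert_of_mem (Finset.mem_image.2 ⟨1, Finset.mem_range.2 (by omega), rfl⟩)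
      · exact Finset.mem_insert_self _ _
    obtain ⟨Y, hAY, hYs, hYc⟩ := Finset.exists_subsuperset_card_eq hAs
      (Finset.card_le_three.trans (by omega : 3 ≤ k)) (by rw [hcf]; omega)
    refine ⟨Y, hYs, hYc, ?_⟩
    have h01 := hm (show 0 < 1 by norm_num)
    have := hullArea_ge (Y := Y) (a := ht (k - 2) e 0) (b := ht (k - 2) e 1) (c := 0) (d := 0)
      h01.le le_rfl (hAY (by rw [hA]; simp)) (hAY (by rw [hA]; simp)) (hAY (by rw [hA]; simp))
      (hAY (by rw [hA]; simp))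
    linarith
  obtain ⟨Y2, hY2s, hY2c, hY2p⟩ := hY2
  have ht : ((k - 2 : ℕ) : ℝ) / 2 ≤ minArea k (fan (k - 2) e n) := by
    refine le_csInf ⟨_, Y2, hY2s, hY2c, rfl, hY2p⟩ ?_
    rintro a ⟨Y, hY, hYc, rfl, hYp⟩
    exact fan_min hk he he1 hY hYc hYp
  have ht0 : 0 < minArea k (fan (k - 2) e n) := lt_of_lt_of_le (by positivity) ht
  rw [div_le_div_iff₀ ht0 hKr]
  nlinarith

lemma f_bdd (k n : ℕ) : BddBelow {r | ∃ S : Finset (ℝ × ℝ), S.card = n ∧
    ¬ Collinear ℝ (S : Set (ℝ × ℝ)) ∧ r = maxArea k S / minArea k S} := by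
  refine ⟨0, ?_⟩
  rintro r ⟨S, -, -, rfl⟩
  refine div_nonneg (Real.sSup_nonneg ?_) (Real.sInf_nonneg ?_)
  · rintro a ⟨Y, -, -, rfl⟩; exact ENNReal.toReal_nonneg
  · rintro a ⟨Y, -, -, -, h⟩; exact h.le

lemma f_le {k n : ℕ} (hk : 4 ≤ k) (hn : k ≤ n) : f k n ≤ (((n - 2) / (k - 2) : ℕ) : ℝ) := by
  have hKr : (0 : ℝ) < ((k - 2 : ℕ) : ℝ) := by exact_mod_cast (by omega : 0 < k - 2)
  have key : ∀ e : ℝ, 0 < e → e < 1 → f k n ≤ (((n - 2) / (k - 2) : ℕ) : ℝ) + e := by
    intro e he he1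
    have h1 : f k n ≤ maxArea k (fan (k - 2) e n) / minArea k (fan (k - 2) e n) :=
      csInf_le (f_bdd k n) ⟨_, card_fan (by omega) he he1 (by omega),
        fan_not_col (by omega) he he1 (by omega), rfl⟩
    refine (h1.trans (fan_ratio hk he he1 hn)).trans ?_
    rw [div_le_iff₀ hKr, ht]
    have h2 : (((n - 2) % (k - 2) : ℕ) : ℝ) ≤ ((k - 2 : ℕ) : ℝ) := by
      exact_mod_cast (Nat.mod_lt _ (by omega)).le
    nlinarith
  refine le_of_forall_pos_le_add fun e he => ?_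
  have h1 := key (min e (1/2)) (lt_min he (by norm_num)) (lt_of_le_of_lt (min_le_right _ _) (by norm_num))
  linarith [min_le_left e (1/2)]

/-- For every `k ≥ 4` and every `n ≥ 2k` such that `k - 2` does not divide `n - 2`, the infimum
`f(k,n)` is at most the integer part of `(n-2)/(k-2)` and strictly smaller than the ratio
`T_k(S_n)/t_k(S_n)` of the two-line set; such `n` are unbounded, so for every `k ≥ 4` there is no
`N(k)` as asked. -/
theorem result (k : ℕ) (hk : 4 ≤ k) :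
    (∀ n : ℕ, 2 * k ≤ n → ¬ (k - 2) ∣ (n - 2) →
      f k n ≤ (((n - 2) / (k - 2) : ℕ) : ℝ) ∧
      f k n < maxArea k (twoLines n) / minArea k (twoLines n)) ∧
    ¬ ∃ N : ℕ, ∀ n ≥ N, f k n = maxArea k (twoLines n) / minArea k (twoLines n) := by
  have key : ∀ n : ℕ, 2 * k ≤ n → ¬ (k - 2) ∣ (n - 2) →
      f k n ≤ (((n - 2) / (k - 2) : ℕ) : ℝ) ∧
      f k n < maxArea k (twoLines n) / minArea k (twoLines n) := by
    intro n hn hdiv
    have h1 := f_le hk (show k ≤ n by omega)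
    refine ⟨h1, lt_of_le_of_lt h1 (lt_of_lt_of_le ?_ (twoLines_ratio hk hn))⟩
    have hkr : (0 : ℝ) < (k : ℝ) - 2 := by
      have : (4 : ℝ) ≤ k := by exact_mod_cast hk
      linarith
    rw [lt_div_iff₀ hkr]
    have h2 : (n - 2) / (k - 2) * (k - 2) < n - 2 := by
      have h3 := Nat.div_mul_le_self (n - 2) (k - 2)
      refine lt_of_le_of_ne h3 (fun h => hdiv ?_)
      exact ⟨(n - 2) / (k - 2), by rw [mul_comm]; exact h.symm⟩
    have h3 : (((n - 2) / (k - 2) * (k - 2) : ℕ) : ℝ) < ((n - 2 : ℕ) : ℝ) := by exact_mod_cast h2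
    rw [Nat.cast_mul, Nat.cast_sub (show 2 ≤ k by omega), Nat.cast_sub (show 2 ≤ n by omega)] at h3
    push_cast at h3
    exact h3
  refine ⟨key, ?_⟩
  rintro ⟨N, hN⟩
  set n := (N + 2 * k) * (k - 2) + 1 + 2 with hn
  have hk2 : 1 ≤ k - 2 := by omega
  have h1 : N + 2 * k ≤ (N + 2 * k) * (k - 2) := Nat.le_mul_of_pos_right _ hk2
  have h2 : ¬ (k - 2) ∣ (n - 2) := by
    intro h
    have h3 : n - 2 = (N + 2 * k) * (k - 2) + 1 := by omega
    rw [h3] at h
    have h4 := (Nat.dvd_add_right (Dvd.intro_left _ rfl)).1 h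
    have := Nat.le_of_dvd one_pos h4
    omega
  have h3 := (key n (by omega) h2).2
  rw [hN n (by omega)] at h3
  exact lt_irrefl _ h3

end Pool.Agent.Results.MP_ee40c7_co.FloorBound
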